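import Mathlib
import Pool.Agent.W743.GV.Stm

/-! Part IMP: the pressure function. -/

open Set
open scoped ContDiff

namespace Pool.Agent.W110.GV

open Pool.Agent.W743.GV

noncomputable section

theorem hasFDerivAt_coord (i : Fin 3) (x : E3) :
    HasFDerivAt (fun z : E3 => z i) (EuclideanSpace.proj i : E3 →L[ℝ] ℝ) x :=
  (EuclideanSpace.proj i : E3 →L[ℝ] ℝ).hasFDerivAt

theorem prj (i : Fin 3) (v : E3) : (EuclideanSpace.proj i : E3 →L[ℝ] ℝ) v = v i := rfl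

theorem contDiff_coord (i : Fin 3) : ContDiff ℝ ∞ (fun z : E3 => z i) :=
  (EuclideanSpace.proj i : E3 →L[ℝ] ℝ).contDiff

theorem continuous_coord (i : Fin 3) : Continuous (fun z : E3 => z i) :=
  (EuclideanSpace.proj i : E3 →L[ℝ] ℝ).continuous

theorem contDiff_ss : ContDiff ℝ ∞ ss :=
  ((contDiff_coord 0).pow 2).add ((contDiff_coord 1).pow 2)

theorem hasFDerivAt_ss (x : E3) : HasFDerivAt ss (lf (2 * x 0) (2 * x 1) 0) x := by
  have h := ((hasFDerivAt_coord 0 x).pow 2).add ((hasFDerivAt_coord 1 x).pow 2)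
  refine h.congr_fderiv ?_
  ext v
  simp [lf]

theorem lf_apply (a b c : ℝ) (v : E3) : lf a b c v = a * v 0 + b * v 1 + c * v 2 := by
  simp [lf]

theorem der (d : ℝ) (b f : ℝ → ℝ) (Z : ℝ × ℝ → ℝ) (hD : Data d b f) (hZ : IsPot d b f Z)
    (q : E3 → ℝ) (l : E3 →L[ℝ] ℝ) (x : E3) (hq : HasFDerivAt q l x) (h0 : x 0 ≠ 0)
    (hs : ss x ∈ J d) (hP : q x ∈ J d) :
    HasFDerivAt (fun z : E3 => Real.arctan (z 1 / z 0) + Z (ss z, q z) - Z (1, 1))
      (lf (-(x 1) / ss x + QQ b f (ss x) (q x) * x 0 / (ss x * √(MM b f (ss x) (q x))))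
        (x 0 / ss x + QQ b f (ss x) (q x) * x 1 / (ss x * √(MM b f (ss x) (q x)))) 0 +
        (1 / (2 * √(MM b f (ss x) (q x)))) • l) x := by
  have hs0 : 0 < ss x := by
    have : 0 < x 0 ^ 2 := by positivity
    have h1 : 0 ≤ x 1 ^ 2 := by positivity
    unfold ss; linarith
  have hr : 0 < √(MM b f (ss x) (q x)) := Real.sqrt_pos.2 (hD.Mpos _ hs _ hP)
  set r := √(MM b f (ss x) (q x)) with hrdef
  set Q := QQ b f (ss x) (q x) with hQdef
  have h1 : HasFDerivAt (fun z : E3 => z 1 / z 0)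
      ((x 0)⁻¹ • (EuclideanSpace.proj 1 : E3 →L[ℝ] ℝ) +
        (-(x 1) / (x 0) ^ 2) • (EuclideanSpace.proj 0 : E3 →L[ℝ] ℝ)) x := by
    have h2 : HasFDerivAt (fun z : E3 => (z 0)⁻¹)
        ((-((x 0) ^ 2)⁻¹) • (EuclideanSpace.proj 0 : E3 →L[ℝ] ℝ)) x :=
      (hasDerivAt_inv h0).comp_hasFDerivAt x (hasFDerivAt_coord 0 x)
    have h3 := (hasFDerivAt_coord 1 x).mul h2
    have h4 : (fun z : E3 => z 1 / z 0) = fun z : E3 => z 1 * (z 0)⁻¹ := by
      funext z; rw [div_eq_mul_inv]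
    rw [h4]
    refine h3.congr_fderiv ?_
    ext v
    simp only [add_apply, smul_apply, smul_eq_mul]
    field_simp
    ring
  have h2 := h1.arctan
  have h3 : HasFDerivAt (fun z : E3 => (ss z, q z)) ((lf (2 * x 0) (2 * x 1) 0).prod l) x :=
    (hasFDerivAt_ss x).prodMk hq
  have h4 := (hZ.2 (ss x, q x) ⟨hs, hP⟩).comp x h3
  have h5 := (h2.add h4).sub_const (Z (1, 1))
  refine h5.congr_fderiv ?_
  ext v
  simp only [add_apply, smul_apply, smul_eq_mul,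
    ContinuousLinearMap.comp_apply, ContinuousLinearMap.prod_apply,
    ContinuousLinearMap.coe_fst', ContinuousLinearMap.coe_snd', lf_apply, prj]
  rw [← hrdef, ← hQdef]
  have h6 : (1 : ℝ) + (x 1 / x 0) ^ 2 = ss x / x 0 ^ 2 := by
    unfold ss; field_simp
  rw [h6]
  have hr0 : r ≠ 0 := hr.ne'
  have hs1 : ss x ≠ 0 := hs0.ne'
  field_simp
  ring

theorem t_IMP (hINV : S_INV) : S_IMP := by
  intro d b f Z hD hZ
  let O : Set E3 := {z | 0 < z 0 ∧ ss z ∈ J d ∧ z 2 ∈ J d}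
  let g : E3 → ℝ := fun z => Real.arctan (z 1 / z 0) + Z (ss z, z 2) - Z (1, 1)
  have hd := hD.hd
  have h1J : (1 : ℝ) ∈ J d := ⟨by linarith, by linarith⟩
  have hO : IsOpen O := by
    have h1 : IsOpen {z : E3 | 0 < z 0} := isOpen_lt continuous_const (continuous_coord 0)
    have h2 : IsOpen {z : E3 | ss z ∈ J d} := isOpen_Ioo.preimage contDiff_ss.continuous
    have h3 : IsOpen {z : E3 | z 2 ∈ J d} := isOpen_Ioo.preimage (continuous_coord 2)
    exact h1.inter (h2.inter h3)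
  have hss : ∀ a c e : ℝ, ss (!₂[a, c, e] : E3) = a ^ 2 + c ^ 2 := by
    intro a c e
    simp [ss]
  have hy : (!₂[1, 0, 1] : E3) ∈ O := by
    refine ⟨by simp, ?_, ?_⟩
    · rw [hss]; simpa using h1J
    · simpa using h1J
  have hg : ContDiffOn ℝ ∞ g O := by
    have h1 : ContDiffOn ℝ ∞ (fun z : E3 => z 1 / z 0) O :=
      (contDiff_coord 1).contDiffOn.div (contDiff_coord 0).contDiffOn fun z hz => hz.1.ne'
    have h2 : ContDiffOn ℝ ∞ (fun z : E3 => Real.arctan (z 1 / z 0)) O :=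
      Real.contDiff_arctan.comp_contDiffOn h1
    have h3 : ContDiffOn ℝ ∞ (fun z : E3 => (ss z, z 2)) O :=
      contDiff_ss.contDiffOn.prodMk (contDiff_coord 2).contDiffOn
    have h4 : ContDiffOn ℝ ∞ (fun z : E3 => Z (ss z, z 2)) O :=
      hZ.1.comp h3 fun z hz => ⟨hz.2.1, hz.2.2⟩
    exact (h2.add h4).sub contDiffOn_const
  have hgy : g !₂[1, 0, 1] = 0 := by
    simp [g, hss]
  have hder : fderiv ℝ g !₂[1, 0, 1] (EuclideanSpace.single 2 1) ≠ 0 := by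
    have h1 := der d b f Z hD hZ (fun z => z 2) _ !₂[1, 0, 1] (hasFDerivAt_coord 2 _) (by simp)
      hy.2.1 hy.2.2
    have h2 : fderiv ℝ g !₂[1, 0, 1] = _ := h1.fderiv
    rw [h2]
    have hr : 0 < √(MM b f (ss (!₂[1, 0, 1] : E3)) ((!₂[1, 0, 1] : E3) 2)) :=
      Real.sqrt_pos.2 (hD.Mpos _ hy.2.1 _ hy.2.2)
    rw [add_apply, smul_apply, lf_apply]
    have h3 : (EuclideanSpace.proj 2 : E3 →L[ℝ] ℝ) (EuclideanSpace.single 2 1) = 1 := by simp
    rw [h3]
    have h4 : (EuclideanSpace.single 2 (1 : ℝ) : E3) 0 = 0 := by simp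
    have h5 : (EuclideanSpace.single 2 (1 : ℝ) : E3) 1 = 0 := by simp
    rw [h4, h5, zero_mul, mul_zero, mul_zero, add_zero, add_zero, zero_add, smul_eq_mul, mul_one]
    exact (one_div_pos.2 (mul_pos two_pos hr)).ne'
  obtain ⟨U, p, hU, hUc, hUy, hpy, hpc, hUp⟩ := hINV O g !₂[1, 0, 1] hO hy hg hder
  have hbase : (!₂[(!₂[1, 0, 1] : E3) 0, (!₂[1, 0, 1] : E3) 1, g !₂[1, 0, 1]] : E3) =
      !₂[1, 0, 0] := by
    rw [hgy]; simp
  rw [hbase] at hUy hpy
  have hx0 : ∀ x ∈ U, 0 < x 0 := by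
    intro x hx
    simpa using (hUp x hx).1.1
  have hsJ : ∀ x ∈ U, ss x ∈ J d := by
    intro x hx
    have := (hUp x hx).1.2.1
    rwa [hss] at this
  have hpJ : ∀ x ∈ U, p x ∈ J d := by
    intro x hx
    simpa using (hUp x hx).1.2.2
  refine ⟨U, p, hU, hUc, hUy, by simpa using hpy, hsJ, hpJ, hpc, ?_⟩
  intro x hx
  have hpd : DifferentiableAt ℝ p x :=
    (hpc.contDiffAt (hU.mem_nhds hx)).differentiableAt (by simp)
  have hl := hpd.hasFDerivAt
  have h1 := der d b f Z hD hZ p _ x hl (hx0 x hx).ne' (hsJ x hx) (hpJ x hx)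
  have h2 : (fun z : E3 => Real.arctan (z 1 / z 0) + Z (ss z, p z) - Z (1, 1)) =ᶠ[nhds x]
      fun z : E3 => z 2 := by
    filter_upwards [hU.mem_nhds hx] with z hz
    have h3 := (hUp z hz).2
    simp only [g, hss] at h3
    simpa [ss] using h3
  have h3 := (h1.congr_of_eventuallyEq h2.symm).unique (hasFDerivAt_coord 2 x)
  have hs0 : 0 < ss x := by
    have h4 : 0 < x 0 ^ 2 := by have := hx0 x hx; positivity
    have h5 : 0 ≤ x 1 ^ 2 := by positivity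
    unfold ss; linarith
  have hr : 0 < √(MM b f (ss x) (p x)) := Real.sqrt_pos.2 (hD.Mpos _ (hsJ x hx) _ (hpJ x hx))
  refine hl.congr_fderiv ?_
  ext v
  have h4 := congrArg (fun T : E3 →L[ℝ] ℝ => T v) h3
  simp only [add_apply, smul_apply, smul_eq_mul, lf_apply,
    prj] at h4
  unfold Lp
  rw [lf_apply]
  have hr0 : √(MM b f (ss x) (p x)) ≠ 0 := hr.ne'
  have hs1 : ss x ≠ 0 := hs0.ne'
  have h5 : (fderiv ℝ p x) v = 2 * √(MM b f (ss x) (p x)) *
      (1 / (2 * √(MM b f (ss x) (p x))) * (fderiv ℝ p x) v) := by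
    field_simp
  rw [h5, ← sub_eq_iff_eq_add'.2 h4.symm]
  field_simp
  ring

end

end Pool.Agent.W110.GV
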